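import Pool.Agent.Q183.CN.F

/-!
# Gaussian estimates for the hat function, larger balls

As in `Pool.Agent.Q183.CN`, for balls of radius `20°`: the Lipschitz constant is `√2 sin R`.
-/

set_option autoImplicit false

open MeasureTheory Metric Set Filter Topology

namespace Pool.Agent.Q183.CM

open Pool.Agent.Q183.CN
open Pool.Agent.W716.FV (E gam gd)
open Pool.Agent.Q188.FC (Cc lf NN NNL NI mv sv hs qp PB PL)
open Pool.Agent.H241R3.FV (act mat det_mat)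
open Pool.Agent.Q280.FC (pb_mono pb_const pb_norm pb_mul pb_add pb_sub pb_pow pb_inner pb_apply
  pb_sum pb_intc cs cc_cont cc_pb inner_int int_inner_sq qp_cont qp_pb)

variable {n : ℕ}

/-- the parameters -/
structure Par (n : ℕ) (κ ρ : ℝ) : Prop where
  n0 : 0 < n
  k0 : 0 ≤ κ
  r0 : 0 < ρ
  rr : 41 * ρ ^ 2 ≤ 5
  kk : κ ^ 2 = 2 * ρ ^ 2

theorem Par.r1 {κ ρ : ℝ} (h : Par n κ ρ) : ρ < 1 := by
  have h1 := h.rr
  have h2 := h.r0
  nlinarith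

theorem Par.k32 {κ ρ : ℝ} (h : Par n κ ρ) : κ ≤ 3 / 2 * ρ := by
  have h1 := h.kk
  have h2 := h.r0
  refine le_of_sq_le_sq ?_ (by positivity)
  nlinarith

theorem Par.rk {κ ρ : ℝ} (h : Par n κ ρ) : ρ ≤ κ := by
  have h1 := h.kk
  have h2 := h.k0
  refine le_of_sq_le_sq ?_ h2
  nlinarith

/-- consequences of the conditions on the parameters; `τ = lf p * ‖p‖` -/
theorem Par.tau {κ ρ : ℝ} (h : Par n κ ρ) {p : E n} (hp : ‖p‖ ≤ ρ) :
    36 * (lf p * ‖p‖) ^ 2 ≤ 5 ∧ lf p ^ 2 = 1 + (lf p * ‖p‖) ^ 2 ∧ 36 * (ρ ^ 2 * lf p ^ 2) ≤ 5 := by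
  have hρ1 := h.r1
  have hp1 : ‖p‖ < 1 := hp.trans_lt hρ1
  obtain ⟨h1, h2, -⟩ := bst hp1
  have hr0 := h.r0
  have hr13 := h.rr
  have hpp : ‖p‖ ^ 2 ≤ ρ ^ 2 := pow_le_pow_left₀ (norm_nonneg p) hp 2
  set l := lf p with hl
  set a := (1 : ℝ) - ρ ^ 2 with ha
  have ha0 : 0 < a := by rw [ha]; nlinarith
  set t := (l * ‖p‖) ^ 2 with ht
  have ht0 : 0 ≤ t := sq_nonneg _
  have h3 : a * t ≤ ρ ^ 2 := by
    have e : l ^ 2 * (1 - ‖p‖ ^ 2) * ‖p‖ ^ 2 = ‖p‖ ^ 2 := by rw [h2, one_mul]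
    have e2 : a * t ≤ (1 - ‖p‖ ^ 2) * t := by
      apply mul_le_mul_of_nonneg_right _ ht0
      rw [ha]; linarith
    have e3 : (1 - ‖p‖ ^ 2) * t = l ^ 2 * (1 - ‖p‖ ^ 2) * ‖p‖ ^ 2 := by rw [ht]; ring
    rw [e3, e] at e2
    exact e2.trans hpp
  have h5 : 36 * t ≤ 5 := by
    have e2 : a * (36 * t) ≤ a * 5 := by
      rw [ha] at h3 ⊢
      nlinarith
    exact le_of_mul_le_mul_left e2 ha0
  have h6 : l ^ 2 = 1 + t := by rw [ht]; nlinarith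
  refine ⟨h5, h6, ?_⟩
  rw [h6]
  have e1 : ρ ^ 2 * (36 * (1 + t)) ≤ ρ ^ 2 * 41 := by
    apply mul_le_mul_of_nonneg_left _ (sq_nonneg ρ)
    linarith
  linarith

theorem Par.cc {κ ρ : ℝ} (h : Par n κ ρ) {p : E n} (hp : ‖p‖ ≤ ρ) {φ : E n → ℝ}
    (hφ : Ck κ ρ φ) : Cc (sh p φ) := by
  have hp1 : ‖p‖ < 1 := hp.trans_lt h.r1
  obtain ⟨h1, -⟩ := bst hp1
  obtain ⟨-, -, t3⟩ := h.tau hp
  refine sh_cc h.k0 hp hp1 hφ ?_
  have h2 := h.k32
  have h3 := h.k0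
  have h4 := h.r0
  have h5 : (κ + ρ) * lf p ≤ 5 / 2 * ρ * lf p := by
    apply mul_le_mul_of_nonneg_right _ (by linarith)
    linarith
  refine h5.trans ?_
  refine le_of_sq_le_sq ?_ (by norm_num)
  nlinarith

/-- the composition with `N_p`, scaled -/
theorem Par.ccn {κ ρ : ℝ} (h : Par n κ ρ) {p : E n} (hp : ‖p‖ ≤ ρ) {φ : E n → ℝ}
    (hφ : Ck κ ρ φ) : Cc (fun z => 9 / 5 * φ (NN p z)) := by
  have hp1 : ‖p‖ < 1 := hp.trans_lt h.r1
  obtain ⟨h1, -, h3, -⟩ := bst hp1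
  obtain ⟨-, -, t3⟩ := h.tau hp
  have hk0 := h.k0
  have hk : 9 / 5 * (κ * lf p) ≤ 1 := by
    refine le_of_sq_le_sq ?_ (by norm_num)
    have h5 := h.kk
    have h6 : (9 / 5 * (κ * lf p)) ^ 2 = 81 / 25 * (κ ^ 2 * lf p ^ 2) := by ring
    rw [h6, h5]
    nlinarith
  refine ⟨fun x y => ?_, fun t x => ?_⟩
  · have e2 : NN p x - NN p y = NN p (x - y) := by rw [← h3, ← h3, ← h3, map_sub]
    have h4 := hφ.lip (NN p x) (NN p y)
    rw [e2] at h4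
    have h5 := nn_le hp1 (x - y)
    rw [← mul_sub, abs_mul, abs_of_pos (by norm_num : (0 : ℝ) < 9 / 5)]
    calc 9 / 5 * |φ (NN p x) - φ (NN p y)| ≤ 9 / 5 * (κ * (lf p * ‖x - y‖)) := by
          gcongr
          exact h4.trans (by gcongr)
      _ = 9 / 5 * (κ * lf p) * ‖x - y‖ := by ring
      _ ≤ 1 * ‖x - y‖ := by gcongr
      _ = _ := one_mul _
  · have e2 : NN p (t • x) = t • NN p x := by rw [← h3, ← h3, map_smul]
    rw [e2, hφ.hom]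
    ring

/-- strong monotonicity -/
theorem mono_gauss {κ ρ : ℝ} (h : Par n κ ρ) {p : E n} (hp : ‖p‖ ≤ ρ) {φ : E n → ℝ}
    (hφ : Ck κ ρ φ) (b : E n) : ‖b‖ ^ 2 / 8 ≤
      ∫ z, (1 - sh p φ z * (lf p * inner ℝ p z)) * (inner ℝ b z * inner ℝ b z) ∂(gam n) := by
  have hρ1 := h.r1
  have hp1 : ‖p‖ < 1 := hp.trans_lt hρ1
  obtain ⟨h1, -⟩ := bst hp1
  obtain ⟨t1, t2, t3⟩ := h.tau hp
  have hl : 0 < lf p := by linarith
  obtain ⟨c1, c2⟩ := comp_pb hp1 hφ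
  have ci := cont_inner b
  have cp := cont_inner p
  have pi := pb_inner b
  have pp := pb_inner p
  -- the two factors
  set f : E n → ℝ := fun z => φ (NN p z) * inner ℝ b z with hf
  set g : E n → ℝ := fun z => (lf p * inner ℝ p z) * inner ℝ b z with hg
  have cf : Continuous f := c1.mul ci
  have cg : Continuous g := (continuous_const.mul cp).mul ci
  have pf : PB f := pb_mul c2 pi
  have pg : PB g := pb_mul (pb_mul (pb_const _) pp) pi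
  have hcs := cs (pb_intc (cf.pow 2) (pb_pow pf 2)) (pb_intc (cg.pow 2) (pb_pow pg 2))
    (pb_intc (cf.mul cg) (pb_mul pf pg))
  have hg2 : ∫ z, g z ^ 2 ∂(gam n) ≤ 3 * (lf p * ‖p‖) ^ 2 * ‖b‖ ^ 2 := by
    have e : (fun z => g z ^ 2) = fun z => lf p ^ 2 * ((inner ℝ p z : ℝ) ^ 2 * (inner ℝ b z : ℝ) ^ 2) := by
      funext z
      rw [hg]
      ring
    rw [e, integral_const_mul, mom4]
    have := inner_sq_le p b
    have h5 : lf p ^ 2 * (‖p‖ ^ 2 * ‖b‖ ^ 2 + 2 * (inner ℝ p b : ℝ) ^ 2) ≤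
        lf p ^ 2 * (‖p‖ ^ 2 * ‖b‖ ^ 2 + 2 * (‖p‖ ^ 2 * ‖b‖ ^ 2)) := by gcongr
    refine h5.trans (le_of_eq (by ring))
  have hf2 : ∫ z, f z ^ 2 ∂(gam n) ≤ ‖b‖ ^ 2 := by
    have e1 := cc_four (h.ccn hp hφ) b
    have e2 : ∫ z, (9 / 5 * φ (NN p z) * inner ℝ b z) ^ 2 ∂(gam n) =
        81 / 25 * ∫ z, f z ^ 2 ∂(gam n) := by
      rw [← integral_const_mul]
      refine integral_congr_ae (ae_of_all _ fun z => ?_)
      simp only [hf]
      ring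
    rw [e2] at e1
    have := sq_nonneg ‖b‖
    linarith
  have hfg : |∫ z, f z * g z ∂(gam n)| ≤ 7 / 8 * ‖b‖ ^ 2 := by
    apply abs_le_of_sq_le_sq _ (by positivity)
    have hf0 : 0 ≤ ∫ z, f z ^ 2 ∂(gam n) := integral_nonneg fun z => sq_nonneg _
    have hg0 : 0 ≤ ∫ z, g z ^ 2 ∂(gam n) := integral_nonneg fun z => sq_nonneg _
    set t := (lf p * ‖p‖) ^ 2 with ht
    have ht0 : 0 ≤ t := sq_nonneg _
    calc (∫ z, f z * g z ∂(gam n)) ^ 2 ≤ _ := hcs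
      _ ≤ (‖b‖ ^ 2) * (3 * t * ‖b‖ ^ 2) := by gcongr
      _ = (1 / 12 * (36 * t)) * (‖b‖ ^ 2) ^ 2 := by ring
      _ ≤ (1 / 12 * 5) * (‖b‖ ^ 2) ^ 2 := by gcongr
      _ ≤ (7 / 8 * ‖b‖ ^ 2) ^ 2 := by
          have : 0 ≤ (‖b‖ ^ 2) ^ 2 := sq_nonneg _
          nlinarith
  -- conclusion
  have hprob := Pool.Agent.Q280.FC.gprob n
  have ib : Integrable (fun z : E n => (inner ℝ b z : ℝ) ^ 2) (gam n) :=
    pb_intc (ci.pow 2) (pb_pow pi 2)
  have ifg : Integrable (fun z => f z * g z) (gam n) := pb_intc (cf.mul cg) (pb_mul pf pg)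
  have csh : Continuous (sh p φ) := c1.sub (continuous_const.mul cp)
  have psh : PB (sh p φ) := pb_sub c2 (pb_mul (pb_const _) pp)
  have iM : Integrable (fun z => (1 - sh p φ z * (lf p * inner ℝ p z)) *
      (inner ℝ b z * inner ℝ b z)) (gam n) := by
    refine pb_intc ((continuous_const.sub (csh.mul (continuous_const.mul cp))).mul (ci.mul ci)) ?_
    exact pb_mul (pb_sub (pb_const _) (pb_mul psh (pb_mul (pb_const _) pp))) (pb_mul pi pi)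
  have e1 : ‖b‖ ^ 2 - ∫ z, f z * g z ∂(gam n) ≤
      ∫ z, (1 - sh p φ z * (lf p * inner ℝ p z)) * (inner ℝ b z * inner ℝ b z) ∂(gam n) := by
    rw [← int_inner_sq b, ← integral_sub ib ifg]
    refine integral_mono (ib.sub ifg) iM fun z => ?_
    simp only [hf, hg]
    unfold sh
    have : 0 ≤ (lf p * inner ℝ p z) ^ 2 * (inner ℝ b z : ℝ) ^ 2 := by positivity
    nlinarith
  have := (abs_le.1 hfg).2
  linarith

/-! ### the second moment at a centre -/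

theorem dual_sq (l : E n →L[ℝ] ℝ) (w : E n) :
    ‖l - innerSL ℝ w‖ ^ 2 = ‖l‖ ^ 2 - 2 * l w + ‖w‖ ^ 2 := by
  obtain ⟨v, rfl⟩ : ∃ v, innerSL ℝ v = l :=
    ⟨(InnerProductSpace.toDual ℝ (E n)).symm l, by
      ext x
      simp⟩
  rw [← map_sub, innerSL_apply_norm, innerSL_apply_norm, norm_sub_sq_real, innerSL_apply_apply]

theorem sv_fine {κ ρ : ℝ} (h : Par n κ ρ) {p : E n} (hp : ‖p‖ ≤ ρ) {φ : E n → ℝ}
    (hφ : Ck κ ρ φ) (hm : mv (sh p φ) = 0) :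
    3 * sv (sh p φ) ≤ (κ * lf p) ^ 2 - (lf p * ‖p‖) ^ 2 := by
  have hρ1 := h.r1
  have hp1 : ‖p‖ < 1 := hp.trans_lt hρ1
  obtain ⟨h1, -, h3, -⟩ := bst hp1
  have hl : 0 < lf p := by linarith
  have hc := h.cc hp hφ
  obtain ⟨b1, -, -, b4, -, -, b7, -⟩ := Pool.Agent.Q188.FC.cb n _ hc
  obtain ⟨p1, p2, p3, p4, p5, -⟩ := Pool.Agent.Q188.FC.pl n
  set s := sh p φ with hs'
  set w : E n := lf p • p with hw
  have hwn : ‖w‖ ^ 2 = (lf p * ‖p‖) ^ 2 := by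
    rw [hw, norm_smul, Real.norm_eq_abs, abs_of_pos hl]
  set ψ : E n → ℝ := fun x => s x + inner ℝ w x with hψ
  have hψe : ψ = fun z => φ (NN p z) := by
    funext z
    rw [hψ, hs', hw]
    simp only
    rw [real_inner_smul_left]
    unfold sh
    ring
  have hψPL : PL ψ := (p2 s _ b1 (p5 w)).1
  obtain ⟨-, q2, q3, -, q5, q6, q7⟩ := p1 ψ hψPL
  obtain ⟨-, -, r3, -⟩ := p1 s b1
  have hprob := Pool.Agent.Q280.FC.gprob n
  -- the linear term vanishes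
  have hsT : ∀ u : E n, ∫ z, s z * inner ℝ u z ∂(gam n) = 0 := by
    intro u
    rw [← b7 u, hm, inner_zero_left]
  have hlin : ∀ i, ∫ x : E n, x i * s x ∂(gam n) = 0 := by
    intro i
    rw [← hsT (EuclideanSpace.single i 1)]
    refine integral_congr_ae (ae_of_all _ fun z => ?_)
    simp only
    rw [EuclideanSpace.inner_single_left]
    simp
    ring
  have hspec := Pool.Agent.Q188.FC.spo n s b1 b4
  simp only [hlin] at hspec
  -- the derivative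
  have hder : ∀ᵐ x ∂(gam n), ‖fderiv ℝ s x‖ ^ 2 =
      ‖fderiv ℝ ψ x‖ ^ 2 - 2 * fderiv ℝ ψ x w + ‖w‖ ^ 2 := by
    filter_upwards [r3] with x hx
    have e1 : HasFDerivAt ψ (fderiv ℝ s x + innerSL ℝ w) x :=
      hx.hasFDerivAt.add (innerSL ℝ w).hasFDerivAt
    have e2 : fderiv ℝ s x = fderiv ℝ ψ x - innerSL ℝ w := by
      rw [e1.fderiv]
      abel
    rw [e2, dual_sq]
  have hbd : ∀ x, ‖fderiv ℝ ψ x‖ ≤ κ * lf p := by
    intro x
    have hk : 0 ≤ κ * lf p := mul_nonneg h.k0 hl.le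
    have hlip : LipschitzWith (Real.toNNReal (κ * lf p)) ψ := by
      refine LipschitzWith.of_dist_le_mul fun x y => ?_
      rw [Real.dist_eq, dist_eq_norm, Real.coe_toNNReal _ hk, hψe]
      simp only
      have e2 : NN p x - NN p y = NN p (x - y) := by rw [← h3, ← h3, ← h3, map_sub]
      have h4 := hφ.lip (NN p x) (NN p y)
      rw [e2] at h4
      have h5 := nn_le hp1 (x - y)
      calc |φ (NN p x) - φ (NN p y)| ≤ κ * ‖NN p (x - y)‖ := h4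
        _ ≤ κ * (lf p * ‖x - y‖) := mul_le_mul_of_nonneg_left h5 h.k0
        _ = _ := by ring
    have := norm_fderiv_le_of_lipschitz ℝ hlip (x₀ := x)
    rwa [Real.coe_toNNReal _ hk] at this
  have i1 : Integrable (fun x => ‖fderiv ℝ ψ x‖ ^ 2) (gam n) :=
    Pool.Agent.Q280.FC.pb_intm (q6.norm.pow_const 2) (pb_pow q5 2)
  have i2 : Integrable (fun x => fderiv ℝ ψ x w) (gam n) := by
    refine Pool.Agent.Q280.FC.pb_intm (by fun_prop) ?_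
    refine pb_mono (pb_mul q5 (pb_const ‖w‖)) fun x => ?_
    rw [abs_of_nonneg (by positivity : 0 ≤ ‖fderiv ℝ ψ x‖ * ‖w‖)]
    exact (fderiv ℝ ψ x).le_opNorm w
  have e1 : ∫ x, ‖fderiv ℝ s x‖ ^ 2 ∂(gam n) =
      ∫ x, ‖fderiv ℝ ψ x‖ ^ 2 ∂(gam n) - 2 * ∫ x, fderiv ℝ ψ x w ∂(gam n) + ‖w‖ ^ 2 := by
    rw [integral_congr_ae hder]
    have i3 : Integrable (fun x => ‖fderiv ℝ ψ x‖ ^ 2 - 2 * fderiv ℝ ψ x w) (gam n) :=
      i1.sub (i2.const_mul 2)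
    rw [integral_add i3 (integrable_const _), integral_sub i1 (i2.const_mul 2),
      integral_const_mul]
    simp
  have e2 : ∫ x, fderiv ℝ ψ x w ∂(gam n) = ‖w‖ ^ 2 := by
    rw [← q7 w]
    have e3 : (fun x => ψ x * inner ℝ x w) = fun x => s x * inner ℝ w x + (inner ℝ w x : ℝ) ^ 2 := by
      funext x
      simp only [hψ]
      rw [real_inner_comm x w]
      ring
    have i4 : Integrable (fun x => s x * inner ℝ w x) (gam n) :=
      pb_intc ((cc_cont hc).mul (cont_inner w)) (pb_mul (cc_pb hc) (pb_inner w))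
    have i5 : Integrable (fun x : E n => (inner ℝ w x : ℝ) ^ 2) (gam n) :=
      pb_intc ((cont_inner w).pow 2) (pb_pow (pb_inner w) 2)
    rw [e3, integral_add i4 i5, hsT, int_inner_sq, zero_add]
  have e4 : ∫ x, ‖fderiv ℝ ψ x‖ ^ 2 ∂(gam n) ≤ (κ * lf p) ^ 2 := by
    calc ∫ x, ‖fderiv ℝ ψ x‖ ^ 2 ∂(gam n) ≤ ∫ _, (κ * lf p) ^ 2 ∂(gam n) := by
          refine integral_mono i1 (integrable_const _) fun x => ?_
          exact pow_le_pow_left₀ (norm_nonneg _) (hbd x) 2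
      _ = (κ * lf p) ^ 2 := by simp
  have e5 : sv s = ∫ x, s x ^ 2 ∂(gam n) := rfl
  rw [e5, ← hwn]
  have e6 : ∑ i : Fin n, (0 : ℝ) ^ 2 = 0 := by simp
  rw [e6, e1, e2] at hspec
  linarith

end Pool.Agent.Q183.CM
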