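import Pool.Agent.Q183.CM.D

/-!
# The Jacobian, larger balls
-/

set_option autoImplicit false

open MeasureTheory Metric Set Filter Topology

namespace Pool.Agent.Q183.CM

open Pool.Agent.Q183.CN
open Pool.Agent.W716.FV (E gam gd)
open Pool.Agent.Q188.FC (Cc lf NN NNL NI mv sv hs qp PB PL)
open Pool.Agent.H241R3.FV (act mat det_mat)

variable {n : ℕ}

/-- the Jacobian is at most one -/
theorem jac {κ ρ : ℝ} (h : Par n κ ρ) {p : E n} (hp : ‖p‖ ≤ ρ) {φ : E n → ℝ} (hφ : Ck κ ρ φ)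
    (h0 : HH p φ = 0) {G : Matrix (Fin n) (Fin n) ℝ} (hG : G.PosDef) {D : E n → E n →L[ℝ] ℝ}
    (hD : Measurable D) (hDb : ∀ᵐ y ∂(volume : Measure (E n)), ∀ v : E n,
      (D y v) ^ 2 ≤ (‖y‖ ^ 2 - φ y ^ 2) * ∑ i, ∑ j, v i * G i j * v j)
    {T : E n →L[ℝ] E n} (hT : ∀ v, T v = ∫ y, (D y v * W p y) • y) :
    (LL p φ).det ≠ 0 ∧ |T.det| ≤ (lf p)⁻¹ * |(LL p φ).det| * √G.det := by
  have hρ1 := h.r1
  have hρ0 := h.r0.le
  have hp1 : ‖p‖ < 1 := hp.trans_lt hρ1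
  obtain ⟨hg1, -⟩ := bst hp1
  obtain ⟨t1, t2, t3⟩ := h.tau hp
  have hl0 : 0 < lf p := by linarith
  have hbd := ck_bd hρ1.le hφ
  have hc : Cc (sh p φ) := h.cc hp hφ
  have hm := (HH_zero hρ0 hρ1 hp hbd).1 h0
  have hL := det_L hρ0 hρ1 hp hbd hc
  have hTd := det_T h.n0 hρ0 hρ1 hp hφ hc hm hG hD hDb hT
  set s := sh p φ with hs'
  set M := Mm s (lf p • p) with hM
  have hσ := sv_fine h hp hφ hm
  have hσ0 : 0 ≤ sv s := integral_nonneg fun z => sq_nonneg _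
  have hhs := Mm_hs hc hm (lf p • p)
  have hw : ‖lf p • p‖ ^ 2 = (lf p * ‖p‖) ^ 2 := by
    rw [norm_smul, Real.norm_eq_abs, abs_of_pos hl0]
  rw [hw] at hhs
  set t := (lf p * ‖p‖) ^ 2 with ht
  have ht0 : 0 ≤ t := sq_nonneg _
  have hhs2 : 3 / 5 * hs M ≤ sv s / 2 := by
    have e1 : sv s * (36 * t) ≤ sv s * 5 := mul_le_mul_of_nonneg_left t1 hσ0
    linarith
  have hhs4 : hs M ≤ 36 / 625 := by
    refine hhs.trans ?_
    have hrr := h.rr
    have e0 : (κ * lf p) ^ 2 = 2 * ρ ^ 2 * (1 + t) := by rw [mul_pow, h.kk, t2]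
    have e1 : sv s * 3 * (2 * t) ≤ (2 * ρ ^ 2 * (1 + t) - t) * (2 * t) := by
      apply mul_le_mul_of_nonneg_right _ (by linarith)
      rw [← e0]
      linarith
    have e2 : ρ ^ 2 * ((1 + t) * (4 * t)) ≤ 5 / 41 * ((1 + t) * (4 * t)) := by
      apply mul_le_mul_of_nonneg_right _ (by positivity)
      linarith
    nlinarith [sq_nonneg (31 * t - 5)]
  have hlow := Pool.Agent.Q188.FC.dl n M (Mm_symm s _) hhs4
  rw [Mm_trace hc hm, zero_add] at hlow
  have hx : Real.exp (-sv s / 2) ≤ (1 - M).det := by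
    refine le_trans ?_ hlow
    apply Real.exp_le_exp.2
    linarith
  have hx0 : 0 < (1 - M).det := (Real.exp_pos _).trans_le hx
  rw [abs_of_pos hx0] at hL
  have hkp : 0 < (lf p * kn n) ^ n := pow_pos (mul_pos hl0 (kn_pos n)) n
  constructor
  · intro h5
    rw [h5, abs_zero] at hL
    have : 0 < (lf p * kn n) ^ n * (lf p ^ 2 * (1 - M).det) := by positivity
    linarith
  · calc |T.det| ≤ (lf p * kn n) ^ n * (lf p * (Real.exp (-sv s / 2) * √G.det)) := hTd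
      _ ≤ (lf p * kn n) ^ n * (lf p * ((1 - M).det * √G.det)) := by gcongr
      _ = (lf p)⁻¹ * |(LL p φ).det| * √G.det := by
          rw [hL]
          field_simp

end Pool.Agent.Q183.CM
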