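import Pool.Agent.Q183.CM.G
import Pool.Agent.Q183.CF.BX

/-!
# The functions of the points of a filling of the boundary of a small ball
-/

set_option autoImplicit false

open MeasureTheory Metric Set Filter Topology InnerProductGeometry

namespace Pool.Agent.Q183.CM

open Pool.Agent.Q183.CN

open Pool.Agent.H241R3.FV (Sph RChart gnorm)
open Pool.Agent.H241R3.FV.TDiff (clamp clamp_cont clamp_mem clamp_eq clamp_eventually gnorm_le
  gnorm_smul gnorm_nonneg)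
open Pool.Agent.W716.FV (E dir)
open Pool.Agent.W753.FV.BC (cont_uncurry ae_diff' gnorm_sq deriv_bound)
open Pool.Agent.Q188.FC
open Pool.Agent.Q183.CF (UE FE UE_zero UE_ne abs_UE_le UE_hom UE_sq_le)

variable {n : ℕ} {M : Type} [MetricSpace M]

/-- a family of `1`-Lipschitz functions with the boundary values of the distance functions of the
points of the equator -/
structure Dk (ρ : ℝ) (bd : Sph n → M) (e : Sph n → M → ℝ) : Prop where
  q : ∀ x q q', |e x q - e x q'| ≤ dist q q'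
  x : ∀ x x' q, |Real.cos (e x q) - Real.cos (e x' q)| ≤ ρ * ‖(x : E n) - x'‖
  b : ∀ (x p : Sph n), Real.cos (e x (bd p)) = ρ * inner ℝ (x : E n) (p : E n)
  c : ∀ x q, |Real.cos (e x q)| ≤ ρ

theorem UE_le {ρ : ℝ} {bd : Sph n → M} {e : Sph n → M → ℝ} (he : Dk ρ bd e) (q : M)
    (G : E n) : |UE e q G| ≤ ρ * ‖G‖ := by
  by_cases h : G = 0
  · rw [h, UE_zero]
    simp
  · rw [UE_ne e q G h, abs_mul, abs_norm, mul_comm]
    exact mul_le_mul_of_nonneg_right (he.c _ _) (norm_nonneg _)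

theorem dir_norm (G : E n) (h : G ≠ 0) : ‖(dir G h : E n)‖ = 1 := by
  exact mem_sphere_zero_iff_norm.1 (dir G h).2

theorem norm_dir (G : E n) (h : G ≠ 0) : ‖G‖ • (dir G h : E n) = G := by
  show ‖G‖ • (‖G‖⁻¹ • G) = G
  rw [smul_smul, mul_inv_cancel₀ (norm_ne_zero_iff.2 h), one_smul]

theorem dir_le (G G' : E n) (h : G ≠ 0) (h' : G' ≠ 0) (hle : ‖G'‖ ≤ ‖G‖) :
    (‖G‖ - ‖G'‖) ^ 2 + (‖G'‖ * ‖(dir G h : E n) - dir G' h'‖) ^ 2 ≤ ‖G - G'‖ ^ 2 := by
  have e1 := norm_dir G h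
  have e2 := norm_dir G' h'
  have n1 := dir_norm G h
  have n2 := dir_norm G' h'
  set u : E n := (dir G h : E n) with hu
  set v : E n := (dir G' h' : E n) with hv
  set a := ‖G‖ with ha
  set b := ‖G'‖ with hb
  have ha0 : 0 ≤ a := norm_nonneg _
  have hb0 : 0 ≤ b := norm_nonneg _
  rw [← e1, ← e2]
  have hin : (inner ℝ u v : ℝ) ≤ 1 := by
    have := real_inner_le_norm u v
    rwa [n1, n2, one_mul] at this
  have h1 : ‖a • u - b • v‖ ^ 2 = a ^ 2 + b ^ 2 - 2 * (a * b * inner ℝ u v) := by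
    rw [norm_sub_sq_real, inner_smul_left, inner_smul_right, norm_smul, norm_smul, n1, n2,
      Real.norm_of_nonneg ha0, Real.norm_of_nonneg hb0]
    simp only [conj_trivial]
    ring
  have h2 : ‖u - v‖ ^ 2 = 2 - 2 * inner ℝ u v := by
    rw [norm_sub_sq_real, n1, n2]
    ring
  rw [mul_pow, h1, h2]
  have h3 : 0 ≤ b * (a - b) * (1 - inner ℝ u v) :=
    mul_nonneg (mul_nonneg hb0 (sub_nonneg.2 hle)) (sub_nonneg.2 hin)
  nlinarith

theorem UE_lip1 {κ ρ : ℝ} (hρ : 0 ≤ ρ) (hκ0 : 0 ≤ κ) (hκ : κ ^ 2 = 2 * ρ ^ 2)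
    {bd : Sph n → M} {e : Sph n → M → ℝ} (he : Dk ρ bd e) (q : M) (G G' : E n) (h : G ≠ 0)
    (h' : G' ≠ 0) (hle : ‖G'‖ ≤ ‖G‖) : |UE e q G - UE e q G'| ≤ κ * ‖G - G'‖ := by
  rw [UE_ne e q G h, UE_ne e q G' h']
  have h1 : ‖G‖ * Real.cos (e (dir G h) q) - ‖G'‖ * Real.cos (e (dir G' h') q) =
      (‖G‖ - ‖G'‖) * Real.cos (e (dir G h) q) +
      ‖G'‖ * (Real.cos (e (dir G h) q) - Real.cos (e (dir G' h') q)) := by ring
  rw [h1]
  refine (abs_add_le _ _).trans ?_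
  rw [abs_mul, abs_mul, abs_norm, abs_of_nonneg (sub_nonneg.2 hle)]
  have h2 : (‖G‖ - ‖G'‖) * |Real.cos (e (dir G h) q)| ≤ (‖G‖ - ‖G'‖) * ρ :=
    mul_le_mul_of_nonneg_left (he.c _ _) (sub_nonneg.2 hle)
  have h3 : ‖G'‖ * |Real.cos (e (dir G h) q) - Real.cos (e (dir G' h') q)| ≤
      ‖G'‖ * (ρ * ‖(dir G h : E n) - dir G' h'‖) :=
    mul_le_mul_of_nonneg_left (he.x _ _ _) (norm_nonneg _)
  have h4 := dir_le G G' h h' hle
  set A := ‖G‖ - ‖G'‖ with hA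
  set B := ‖G'‖ * ‖(dir G h : E n) - dir G' h'‖ with hB
  have hA0 : 0 ≤ A := sub_nonneg.2 hle
  have hB0 : 0 ≤ B := by positivity
  have h5 : ρ * (A + B) ≤ κ * ‖G - G'‖ := by
    refine le_of_sq_le_sq ?_ (by positivity)
    rw [mul_pow, mul_pow, hκ]
    have h6 : (A + B) ^ 2 ≤ 2 * ‖G - G'‖ ^ 2 := by nlinarith [sq_nonneg (A - B)]
    have h7 := mul_le_mul_of_nonneg_left h6 (sq_nonneg ρ)
    linarith
  have h6 : ‖G'‖ * (ρ * ‖(dir G h : E n) - dir G' h'‖) = ρ * B := by rw [hB]; ring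
  linarith

theorem le_kap {κ ρ : ℝ} (hκ0 : 0 ≤ κ) (hκ : κ ^ 2 = 2 * ρ ^ 2) : ρ ≤ κ := by
  refine le_of_sq_le_sq ?_ hκ0
  nlinarith [sq_nonneg ρ]

theorem UE_lip {κ ρ : ℝ} (hρ : 0 ≤ ρ) (hκ0 : 0 ≤ κ) (hκ : κ ^ 2 = 2 * ρ ^ 2) {bd : Sph n → M} {e : Sph n → M → ℝ}
    (he : Dk ρ bd e) (q : M) (G G' : E n) :
    |UE e q G - UE e q G'| ≤ κ * ‖G - G'‖ := by
  by_cases h : G = 0
  · subst h
    rw [UE_zero, zero_sub, zero_sub, abs_neg, norm_neg]
    exact (UE_le he q G').trans (mul_le_mul_of_nonneg_right (le_kap hκ0 hκ) (norm_nonneg _))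
  by_cases h' : G' = 0
  · subst h'
    rw [UE_zero, sub_zero, sub_zero]
    exact (UE_le he q G).trans (mul_le_mul_of_nonneg_right (le_kap hκ0 hκ) (norm_nonneg _))
  rcases le_total ‖G'‖ ‖G‖ with hle | hle
  · exact UE_lip1 hρ hκ0 hκ he q G G' h h' hle
  · have := UE_lip1 hρ hκ0 hκ he q G' G h' h hle
    rwa [abs_sub_comm, norm_sub_rev] at this

theorem abs_cos_sub (a b : ℝ) : |Real.cos a - Real.cos b| ≤ |a - b| :=
  Pool.Agent.W18.FV.UF.abs_cos_sub a b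

theorem UE_q {ρ : ℝ} {bd : Sph n → M} {e : Sph n → M → ℝ} (he : Dk ρ bd e) (q q' : M)
    (G : E n) : |UE e q G - UE e q' G| ≤ ‖G‖ * dist q q' := by
  by_cases h : G = 0
  · rw [h, UE_zero, UE_zero]; simp
  rw [UE_ne e q G h, UE_ne e q' G h, ← mul_sub, abs_mul, abs_norm]
  apply mul_le_mul_of_nonneg_left _ (norm_nonneg _)
  exact (abs_cos_sub _ _).trans (he.q _ _ _)

theorem UE_q2 {ρ : ℝ} {bd : Sph n → M} {e : Sph n → M → ℝ} (he : Dk ρ bd e) (q q' : M)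
    (G : E n) : |UE e q' G - UE e q G| ≤
      √(‖G‖ ^ 2 - UE e q G ^ 2) * dist q' q + ‖G‖ * dist q' q ^ 2 := by
  by_cases h : G = 0
  · rw [h, UE_zero, UE_zero]; simp
  rw [UE_ne e q G h, UE_ne e q' G h]
  have hd := he.q (dir G h) q' q
  set φ := e (dir G h) q
  set φ' := e (dir G h) q'
  set δ := φ' - φ with hδ
  have hφ' : φ' = φ + δ := by rw [hδ]; ring
  have hs : √(‖G‖ ^ 2 - (‖G‖ * Real.cos φ) ^ 2) = ‖G‖ * |Real.sin φ| := by
    have : ‖G‖ ^ 2 - (‖G‖ * Real.cos φ) ^ 2 = (‖G‖ * |Real.sin φ|) ^ 2 := by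
      rw [mul_pow, mul_pow, sq_abs, Real.sin_sq]
      ring
    rw [this, Real.sqrt_sq (mul_nonneg (norm_nonneg _) (abs_nonneg _))]
  rw [hs, hφ', Real.cos_add]
  have h1 : ‖G‖ * (Real.cos φ * Real.cos δ - Real.sin φ * Real.sin δ) - ‖G‖ * Real.cos φ =
      ‖G‖ * (Real.cos φ * (Real.cos δ - 1) - Real.sin φ * Real.sin δ) := by ring
  rw [h1, abs_mul, abs_norm, mul_assoc, ← mul_add]
  apply mul_le_mul_of_nonneg_left _ (norm_nonneg _)
  have h2 : |Real.cos δ - 1| ≤ δ ^ 2 := by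
    have h3 := Real.one_sub_sq_div_two_le_cos (x := δ)
    have h4 := Real.cos_le_one δ
    rw [abs_le]
    constructor <;> nlinarith [sq_nonneg δ]
  have h3 : |Real.sin δ| ≤ |δ| := Real.abs_sin_le_abs
  have h4 : δ ^ 2 ≤ dist q' q ^ 2 := by
    rw [← sq_abs]
    exact pow_le_pow_left₀ (abs_nonneg _) hd 2
  calc |Real.cos φ * (Real.cos δ - 1) - Real.sin φ * Real.sin δ|
      ≤ |Real.cos φ * (Real.cos δ - 1)| + |Real.sin φ * Real.sin δ| := abs_sub _ _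
    _ = |Real.cos φ| * |Real.cos δ - 1| + |Real.sin φ| * |Real.sin δ| := by
        rw [abs_mul, abs_mul]
    _ ≤ 1 * dist q' q ^ 2 + |Real.sin φ| * dist q' q := by
        apply add_le_add
        · exact mul_le_mul (Real.abs_cos_le_one _) (h2.trans h4) (abs_nonneg _) zero_le_one
        · exact mul_le_mul_of_nonneg_left (h3.trans hd) (abs_nonneg _)
    _ = |Real.sin φ| * dist q' q + dist q' q ^ 2 := by ring

theorem UE_bd {ρ : ℝ} {bd : Sph n → M} {e : Sph n → M → ℝ} (he : Dk ρ bd e) (G : E n)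
    (x : Sph n) : UE e (bd x) G = inner ℝ (ρ • (x : E n)) G := by
  by_cases h : G = 0
  · rw [h, UE_zero, inner_zero_right]
  rw [UE_ne e _ G h, he.b]
  have e1 := norm_dir G h
  have e2 : (inner ℝ (ρ • (x : E n)) G : ℝ) = inner ℝ (ρ • (x : E n)) (‖G‖ • (dir G h : E n)) := by
    rw [e1]
  rw [e2, inner_smul_left, inner_smul_right, real_inner_comm (x : E n)]
  simp only [conj_trivial]
  ring

theorem FE_Ck {κ ρ : ℝ} (hρ : 0 ≤ ρ) (hκ0 : 0 ≤ κ) (hκ : κ ^ 2 = 2 * ρ ^ 2) {bd : Sph n → M} {e : Sph n → M → ℝ}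
    (he : Dk ρ bd e) (q : M) : Ck κ ρ (FE e q) := by
  refine ⟨fun x y => ?_, fun t x => ?_, fun x => ?_⟩
  · have h1 := UE_lip hρ hκ0 hκ he q x y
    have h2 := UE_lip hρ hκ0 hκ he q (-x) (-y)
    have h3 : ‖-x - -y‖ = ‖x - y‖ := by
      rw [← norm_neg]
      congr 1
      abel
    rw [h3] at h2
    unfold FE
    rw [abs_le] at h1 h2 ⊢
    constructor <;> linarith [h1.1, h1.2, h2.1, h2.2]
  · unfold FE
    rcases le_total 0 t with ht | ht
    · have h1 := UE_hom e q t x ht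
      have h2 := UE_hom e q t (-x) ht
      rw [smul_neg] at h2
      rw [h1, h2]
      ring
    · have h1 := UE_hom e q (-t) x (by linarith)
      have h2 := UE_hom e q (-t) (-x) (by linarith)
      rw [neg_smul] at h1
      rw [neg_smul, smul_neg, neg_neg] at h2
      rw [h1, h2]
      ring
  · have h1 := UE_le he q x
    have h2 := UE_le he q (-x)
    rw [norm_neg] at h2
    unfold FE
    rw [abs_le] at h1 h2 ⊢
    constructor <;> linarith [h1.1, h1.2, h2.1, h2.2]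

theorem FE_bd {ρ : ℝ} {bd : Sph n → M} {e : Sph n → M → ℝ} (he : Dk ρ bd e) (x : Sph n)
    (y : E n) : FE e (bd x) y = inner ℝ (ρ • (x : E n)) y := by
  unfold FE
  rw [UE_bd he, UE_bd he, inner_neg_right]
  ring

theorem FE_q {ρ : ℝ} {bd : Sph n → M} {e : Sph n → M → ℝ} (he : Dk ρ bd e) (q q' : M)
    (y : E n) : |FE e q y - FE e q' y| ≤ dist q q' * ‖y‖ := by
  have h1 := UE_q he q q' y
  have h2 := UE_q he q q' (-y)
  rw [norm_neg] at h2
  unfold FE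
  rw [abs_le] at h1 h2 ⊢
  constructor <;> linarith [h1.1, h1.2, h2.1, h2.2]

theorem UE_chart {κ ρ : ℝ} (hρ : 0 ≤ ρ) (hκ0 : 0 ≤ κ) (hκ : κ ^ 2 = 2 * ρ ^ 2) (hκ1 : κ ≤ 1) {bd : Sph n → M}
    {e : Sph n → M → ℝ} (he : Dk ρ bd e) (C : RChart n M) :
    ∀ᵐ c ∂(volume : Measure (E n)), c ∈ C.U → ∃ D : E n → E n →L[ℝ] ℝ, Measurable D ∧
      ∀ᵐ G ∂(volume : Measure (E n)), HasFDerivAt (fun c' => UE e (C.map c') G) (D G) c ∧
        ∀ v : E n, (D G v) ^ 2 ≤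
          (‖G‖ ^ 2 - UE e (C.map c) G ^ 2) * ∑ i, ∑ j, v i * C.G c i j * v j := by
  have hloc := Pool.Agent.H241R3.FV.TLoc.taskLoc n M C
  have hx : ∀ x x' : E n, ∀ p, |UE e (C.map p) x - UE e (C.map p) x'| ≤ ‖x - x'‖ := by
    intro x x' p
    refine (UE_lip hρ hκ0 hκ he (C.map p) x x').trans ?_
    have := mul_le_mul_of_nonneg_right hκ1 (norm_nonneg (x - x'))
    rwa [one_mul] at this
  have hloc1 : ∀ p ∈ C.U, ∃ ρ K : ℝ, 0 < ρ ∧ 0 ≤ K ∧ ∀ x, ∀ y ∈ closedBall p ρ,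
      ∀ z ∈ closedBall p ρ, |UE e (C.map y) x - UE e (C.map z) x| ≤ ‖x‖ * K * ‖y - z‖ := by
    intro p hp
    obtain ⟨r, hr, hrU, h⟩ := hloc p hp 1 one_pos
    obtain ⟨c, hc, hc'⟩ := gnorm_le (C.G p)
    have hsub : closedBall p (r / 2) ⊆ ball p r := closedBall_subset_ball (by linarith)
    refine ⟨r / 2, c + 1, by positivity, by positivity, fun x y hy z hz => ?_⟩
    have h1 := h y (hsub hy) z (hsub hz)
    have h2 := hc' (y - z)
    have h3 : dist (C.map y) (C.map z) ≤ (c + 1) * ‖y - z‖ := by linarith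
    calc |UE e (C.map y) x - UE e (C.map z) x| ≤ ‖x‖ * dist (C.map y) (C.map z) :=
          UE_q he _ _ _
      _ ≤ ‖x‖ * ((c + 1) * ‖y - z‖) := mul_le_mul_of_nonneg_left h3 (norm_nonneg _)
      _ = _ := by ring
  filter_upwards [ae_diff' (F := fun x p => UE e (C.map p) x) hx hloc1] with p hp hpU
  have hd := hp hpU
  obtain ⟨ρ, K, hρ, hK0, hK⟩ := hloc1 p hpU
  have hcont := cont_uncurry (F := fun x p => UE e (C.map p) x) hx hρ hK
  have hm0 : Measurable fun a : E n × E n =>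
      fderiv ℝ (fun q => UE e (C.map (clamp p ρ q)) a.1) a.2 :=
    measurable_fderiv_with_param ℝ hcont
  have hm1 : Measurable fun x : E n => fderiv ℝ (fun c' => UE e (C.map c') x) p := by
    have h1 : Measurable fun x : E n => fderiv ℝ (fun q => UE e (C.map (clamp p ρ q)) x) p :=
      hm0.comp (measurable_id.prodMk measurable_const)
    have h2 : (fun x : E n => fderiv ℝ (fun q => UE e (C.map (clamp p ρ q)) x) p) =
        fun x : E n => fderiv ℝ (fun c' => UE e (C.map c') x) p := by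
      funext x
      exact (clamp_eventually p hρ (mem_ball_self hρ) (fun c' => UE e (C.map c') x)).fderiv_eq
    rwa [h2] at h1
  refine ⟨fun x => fderiv ℝ (fun c' => UE e (C.map c') x) p, hm1, ?_⟩
  filter_upwards [hd] with x hx1
  refine ⟨hx1.hasFDerivAt, fun v => ?_⟩
  have hnn : 0 ≤ ‖x‖ ^ 2 - UE e (C.map p) x ^ 2 := sub_nonneg.2 (UE_sq_le _ _ _)
  have hbd := deriv_bound hx1 v (A := C.G p) (s := √(‖x‖ ^ 2 - UE e (C.map p) x ^ 2))
    (K := ‖x‖) (Real.sqrt_nonneg _) (norm_nonneg _) (by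
      intro ε hε
      obtain ⟨r, hr, hrU, h⟩ := hloc p hpU ε hε
      refine ⟨r, hr, fun y hy => ⟨dist (C.map y) (C.map p), dist_nonneg,
        h y hy p (mem_ball_self hr), UE_q2 he _ _ _⟩⟩)
  have h2 := pow_le_pow_left₀ (abs_nonneg _) hbd 2
  rw [sq_abs, mul_pow, Real.sq_sqrt hnn, gnorm_sq (C.pos_G p hpU)] at h2
  exact h2

theorem FE_chart {κ ρ : ℝ} (hρ : 0 ≤ ρ) (hκ0 : 0 ≤ κ) (hκ : κ ^ 2 = 2 * ρ ^ 2) (hκ1 : κ ≤ 1) {bd : Sph n → M}
    {e : Sph n → M → ℝ} (he : Dk ρ bd e) (C : RChart n M) :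
    LF κ ρ C.U (fun c => FE e (C.map c)) ∧
    ∀ᵐ c ∂(volume : Measure (E n)), c ∈ C.U →
      ∃ D, GoodD (fun c' => FE e (C.map c')) c (C.G c) D := by
  refine ⟨⟨fun c => FE_Ck hρ hκ0 hκ he _, fun c₀ hc₀ => ?_⟩, ?_⟩
  · obtain ⟨r, hr, hb, hl⟩ := Pool.Agent.H241R3.FV.TLoc.taskLoc n M C c₀ hc₀ 1 one_pos
    obtain ⟨K, hK, hKg⟩ := Pool.Agent.H241R3.FV.TDiff.gnorm_le (C.G c₀)
    refine ⟨r, K + 1, hr, by positivity, hb, fun c hc c' hc' y => ?_⟩
    refine (FE_q he _ _ y).trans ?_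
    have h2 := hl c hc c' hc'
    have h3 := hKg (c - c')
    gcongr
    linarith
  · filter_upwards [UE_chart hρ hκ0 hκ hκ1 he C] with c hc hcU
    obtain ⟨D, hDm, hD⟩ := hc hcU
    refine ⟨fun y => (1 / 2 : ℝ) • (D y - D (-y)), ?_, ?_⟩
    · exact ((hDm.sub (hDm.comp measurable_neg))).const_smul (1 / 2 : ℝ)
    · have hD' : ∀ᵐ y ∂(volume : Measure (E n)), HasFDerivAt (fun c' => UE e (C.map c') (-y))
          (D (-y)) c ∧ ∀ v : E n, (D (-y) v) ^ 2 ≤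
          (‖-y‖ ^ 2 - UE e (C.map c) (-y) ^ 2) * ∑ i, ∑ j, v i * C.G c i j * v j :=
        (Measure.measurePreserving_neg (volume : Measure (E n))).quasiMeasurePreserving.ae hD
      filter_upwards [hD, hD'] with y hy hy'
      constructor
      · have h2 := (hy.1.sub hy'.1).const_smul (1 / 2 : ℝ)
        refine h2.congr_of_eventuallyEq (Eventually.of_forall fun c' => ?_)
        show FE e (C.map c') y = (1 / 2 : ℝ) • (UE e (C.map c') y - UE e (C.map c') (-y))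
        unfold FE
        rw [smul_eq_mul]
        ring
      · intro v
        have h2 := hy.2 v
        have h3 := hy'.2 v
        rw [norm_neg] at h3
        have hg : 0 ≤ ∑ i, ∑ j, v i * C.G c i j * v j := by
          rw [← Pool.Agent.W753.FV.BC.gnorm_sq (C.pos_G c hcU) v]
          positivity
        have u1 := UE_sq_le e (C.map c) y
        have u2 := UE_sq_le e (C.map c) (-y)
        rw [norm_neg] at u2
        have h4 := Pool.Agent.Q53.FC.PC.elem _ _ _ _ _ _ hg u1 u2 h2 h3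
        have h5 : ((1 / 2 : ℝ) • (D y - D (-y))) v = (D y v - D (-y) v) / 2 := by
          rw [smul_apply, sub_apply, smul_eq_mul]
          ring
        rw [h5]
        exact h4

end Pool.Agent.Q183.CM
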