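import Pool.Agent.Q183.CM.H
import Pool.Agent.Q183.CN.I

/-!
# The extended distance functions, sharp Lipschitz constant
-/

set_option autoImplicit false

open MeasureTheory Metric Set Filter Topology InnerProductGeometry

namespace Pool.Agent.Q183.CM

open Pool.Agent.Q183.CN
open Pool.Agent.H241R3.FV (Sph)
open Pool.Agent.W716.FV (E)

variable {n : ℕ} {M : Type} [MetricSpace M]

theorem bessel {x x' p : E n} (hx : ‖x‖ = 1) (hx' : ‖x'‖ = 1) (hp : ‖p‖ = 1) :
    ((inner ℝ x p : ℝ) - inner ℝ x' p) ^ 2 ≤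
      ‖x - x'‖ ^ 2 * (1 - ((inner ℝ x p : ℝ) + inner ℝ x' p) ^ 2 / 4) := by
  set m : ℝ := (inner ℝ x p : ℝ) + inner ℝ x' p with hm
  set q : E n := p - (m / 4) • (x + x') with hq
  have h1 : (inner ℝ (x - x') q : ℝ) = (inner ℝ x p : ℝ) - inner ℝ x' p := by
    rw [hq, inner_sub_right, inner_smul_right, inner_add_right, inner_sub_left, inner_sub_left,
      inner_sub_left, real_inner_self_eq_norm_sq, real_inner_self_eq_norm_sq, hx, hx',
      real_inner_comm x x']
    ring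
  have h2 : ‖x + x'‖ ^ 2 ≤ 4 := by
    have h3 := norm_add_le x x'
    rw [hx, hx'] at h3
    nlinarith [norm_nonneg (x + x')]
  have h3 : ‖q‖ ^ 2 ≤ 1 - m ^ 2 / 4 := by
    have h4 : (inner ℝ p ((m / 4) • (x + x')) : ℝ) = m ^ 2 / 4 := by
      rw [inner_smul_right, inner_add_right, real_inner_comm x p, real_inner_comm x' p, ← hm]
      ring
    rw [hq, norm_sub_sq_real, hp, h4, norm_smul, mul_pow, Real.norm_eq_abs, sq_abs]
    have h5 := mul_le_mul_of_nonneg_left h2 (sq_nonneg (m / 4))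
    nlinarith
  have h4 := abs_real_inner_le_norm (x - x') q
  have h5 := pow_le_pow_left₀ (abs_nonneg _) h4 2
  rw [sq_abs, h1, mul_pow] at h5
  exact h5.trans (mul_le_mul_of_nonneg_left h3 (sq_nonneg _))

theorem arc_diff {ρ k : ℝ} (hρ0 : 0 < ρ) (hk0 : 0 < k) (hk : k ^ 2 + ρ ^ 2 = 1) (hρk : ρ ≤ k)
    (x x' p : Sph n) :
    |Real.arccos (ρ * inner ℝ (x : E n) (p : E n)) -
      Real.arccos (ρ * inner ℝ (x' : E n) (p : E n))| ≤
      2 * Real.arcsin (ρ * ‖(x : E n) - x'‖ / 2) := by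
  have hρ1 : ρ < 1 := by nlinarith
  have hin : ∀ y : Sph n, |ρ * (inner ℝ (y : E n) (p : E n) : ℝ)| ≤ ρ := by
    intro y
    rw [abs_mul, abs_of_pos hρ0]
    have := inner_le_one (sph_norm y) (sph_norm p)
    nlinarith
  have hb := bessel (sph_norm x) (sph_norm x') (sph_norm p)
  have hx := abs_le.1 (hin x)
  have hx' := abs_le.1 (hin x')
  set a : ℝ := inner ℝ (x : E n) (p : E n) with ha
  set a' : ℝ := inner ℝ (x' : E n) (p : E n) with ha'
  set c : ℝ := ‖(x : E n) - x'‖ with hc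
  have hc0 : 0 ≤ c := norm_nonneg _
  set α := Real.arccos (ρ * a) with hα
  set β := Real.arccos (ρ * a') with hβ
  have cα : Real.cos α = ρ * a := Real.cos_arccos (by linarith) (by linarith)
  have cβ : Real.cos β = ρ * a' := Real.cos_arccos (by linarith) (by linarith)
  have hsin : Real.arccos ρ = Real.pi / 2 - Real.arcsin ρ := rfl
  have hα1 : Real.arccos ρ ≤ α := Real.arccos_le_arccos hx.2
  have hβ1 : Real.arccos ρ ≤ β := Real.arccos_le_arccos hx'.2
  have hα2 : α ≤ Real.pi - Real.arccos ρ := by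
    rw [← Real.arccos_neg]
    exact Real.arccos_le_arccos hx.1
  have hβ2 : β ≤ Real.pi - Real.arccos ρ := by
    rw [← Real.arccos_neg]
    exact Real.arccos_le_arccos hx'.1
  have hpos : 0 < Real.arccos ρ := Real.arccos_pos.2 hρ1
  have has : Real.arcsin ρ ≤ Real.pi / 2 := Real.arcsin_le_pi_div_two ρ
  have hD : |(α - β) / 2| ≤ Real.arcsin ρ := by
    rw [abs_le]
    constructor <;> linarith
  have hcos : k ≤ Real.cos ((α - β) / 2) := by
    have h1 : Real.cos (Real.arcsin ρ) ≤ Real.cos |(α - β) / 2| :=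
      Real.cos_le_cos_of_nonneg_of_le_pi (abs_nonneg _) (by linarith [Real.pi_pos]) hD
    rw [Real.cos_abs, Real.cos_arcsin] at h1
    have h2 : √(1 - ρ ^ 2) = k := by
      rw [← hk, add_sub_cancel_right, Real.sqrt_sq hk0.le]
    rwa [h2] at h1
  have hS : 0 < Real.sin ((α + β) / 2) :=
    Real.sin_pos_of_pos_of_lt_pi (by linarith) (by linarith)
  have e1 := Real.cos_sub_cos α β
  have e2 := Real.cos_add_cos α β
  rw [cα, cβ] at e1 e2
  have e3 := Real.sin_sq_add_cos_sq ((α + β) / 2)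
  set S := Real.sin ((α + β) / 2) with hSd
  set C := Real.cos ((α + β) / 2) with hCd
  set s := Real.sin ((α - β) / 2) with hsd
  set u := Real.cos ((α - β) / 2) with hud
  have hu : 0 < u := hk0.trans_le hcos
  have h1 : C ^ 2 ≤ (a + a') ^ 2 / 4 := by
    have h2 : C ^ 2 * u ^ 2 = ρ ^ 2 * ((a + a') ^ 2 / 4) := by
      have h3 : C * u = ρ * (a + a') / 2 := by linarith
      rw [← mul_pow, h3]
      ring
    have h3 : ρ ^ 2 ≤ u ^ 2 := pow_le_pow_left₀ hρ0.le (hρk.trans hcos) 2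
    have h4 : C ^ 2 * u ^ 2 ≤ (a + a') ^ 2 / 4 * u ^ 2 := by
      rw [h2, mul_comm]
      exact mul_le_mul_of_nonneg_left h3 (by positivity)
    exact le_of_mul_le_mul_right h4 (by positivity)
  have h2 : (2 * s) ^ 2 ≤ (ρ * c) ^ 2 := by
    have h3 : S ^ 2 * (2 * s) ^ 2 = ρ ^ 2 * (a - a') ^ 2 := by
      have h4 : S * (2 * s) = -(ρ * (a - a')) := by linarith
      rw [← mul_pow, h4]
      ring
    have h4 : ρ ^ 2 * (a - a') ^ 2 ≤ ρ ^ 2 * (c ^ 2 * S ^ 2) := by
      apply mul_le_mul_of_nonneg_left _ (sq_nonneg ρ)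
      refine hb.trans ?_
      apply mul_le_mul_of_nonneg_left _ (sq_nonneg c)
      linarith
    have h5 : S ^ 2 * (2 * s) ^ 2 ≤ S ^ 2 * (ρ * c) ^ 2 := by
      rw [h3]
      refine h4.trans (le_of_eq (by ring))
    exact le_of_mul_le_mul_left h5 (by positivity)
  have h3 : |s| ≤ ρ * c / 2 := by
    have h4 := abs_le_of_sq_le_sq h2 (by positivity)
    rw [abs_mul, abs_of_pos (by norm_num : (0 : ℝ) < 2)] at h4
    linarith
  have h4 : |(α - β) / 2| ≤ Real.arcsin (ρ * c / 2) := by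
    have h5 : Real.sin |(α - β) / 2| = |s| := by
      rw [hsd]
      rcases le_total 0 ((α - β) / 2) with h | h
      · rw [abs_of_nonneg h, abs_of_nonneg]
        exact Real.sin_nonneg_of_nonneg_of_le_pi h (by linarith [Real.pi_pos, (abs_le.1 hD).2])
      · rw [abs_of_nonpos h, Real.sin_neg, abs_of_nonpos]
        exact Real.sin_nonpos_of_nonpos_of_neg_pi_le h (by linarith [Real.pi_pos, (abs_le.1 hD).1])
    rw [← h5] at h3
    have h6 := Real.arcsin_le_arcsin h3
    rwa [Real.arcsin_sin (by linarith [abs_nonneg ((α - β) / 2), Real.pi_pos])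
      (hD.trans has)] at h6
  have h5 : |α - β| = 2 * |(α - β) / 2| := by
    rw [abs_div, abs_of_pos (by norm_num : (0 : ℝ) < 2)]
    ring
  rw [h5]
  linarith

theorem cos_diff {a b r : ℝ} (hr0 : 0 ≤ r) (hr : r ≤ 1) (h : |a - b| ≤ 2 * Real.arcsin r) :
    |Real.cos a - Real.cos b| ≤ 2 * r := by
  rw [Real.cos_sub_cos, abs_mul, abs_mul, abs_neg, abs_of_pos (by norm_num : (0 : ℝ) < 2)]
  have h1 : |(a - b) / 2| ≤ Real.arcsin r := by
    rw [abs_div, abs_of_pos (by norm_num : (0 : ℝ) < 2)]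
    linarith
  have h2 : |Real.sin ((a - b) / 2)| ≤ r := by
    have h3 := Real.arcsin_le_pi_div_two r
    have h4 : -(Real.pi / 2) ≤ -Real.arcsin r := by linarith
    rw [abs_le] at h1 ⊢
    have h5 : Real.sin (Real.arcsin r) = r := Real.sin_arcsin (by linarith) hr
    constructor
    · rw [← h5, ← Real.sin_neg]
      exact Real.sin_le_sin_of_le_of_le_pi_div_two h4 (by linarith [h1.2]) h1.1
    · rw [← h5]
      exact Real.sin_le_sin_of_le_of_le_pi_div_two (by linarith [h1.1]) h3 h1.2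
  have h3 := Real.abs_sin_le_one ((a + b) / 2)
  calc 2 * |Real.sin ((a + b) / 2)| * |Real.sin ((a - b) / 2)| ≤ 2 * 1 * r := by gcongr
    _ = 2 * r := by ring

theorem ek_dk (hn : 0 < n) {ρ k : ℝ} (hρ0 : 0 < ρ) (hk0 : 0 < k) (hk : k ^ 2 + ρ ^ 2 = 1)
    (hρk : ρ ≤ k) {bd : Sph n → M} (hns : ∀ v w : Sph n,
      Real.arccos (k ^ 2 + ρ ^ 2 * inner ℝ (v : E n) (w : E n)) ≤ dist (bd v) (bd w)) :
    Dk ρ bd (ek ρ bd) := by
  have hd := CN.ek_dk hn hρ0 hk0 hk hns
  have hne := Pool.Agent.H241R3.FV.TExt.sph_nonempty hn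
  have hρ1 : ρ ≤ 1 := by nlinarith
  refine ⟨hd.q, fun x x' q => ?_, hd.b, hd.c⟩
  have h1 : |ei ρ bd x q - ei ρ bd x' q| ≤ 2 * Real.arcsin (ρ * ‖(x : E n) - x'‖ / 2) := by
    refine iInf_sub_le (ei_bdd _ _ _ _) (ei_bdd _ _ _ _) fun p => ?_
    have h1 : Real.arccos (ρ * inner ℝ (x : E n) (p : E n)) + dist q (bd p) -
        (Real.arccos (ρ * inner ℝ (x' : E n) (p : E n)) + dist q (bd p)) =
        Real.arccos (ρ * inner ℝ (x : E n) (p : E n)) -
        Real.arccos (ρ * inner ℝ (x' : E n) (p : E n)) := by ring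
    rw [h1]
    exact arc_diff hρ0 hk0 hk hρk x x' p
  have h2 := (ek_le ρ bd x x' q q).trans h1
  have hc : ‖(x : E n) - x'‖ ≤ 2 := by
    have := norm_sub_le (x : E n) (x' : E n)
    rw [sph_norm, sph_norm] at this
    linarith
  have h3 := cos_diff (by positivity) (by nlinarith [norm_nonneg ((x : E n) - x')]) h2
  linarith

end Pool.Agent.Q183.CM
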