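import Pool.Agent.Q183.CM.I
import Pool.Agent.Q183.CN.J

/-!
# The covering theorem and the lower bound for the volume, larger balls
-/

set_option autoImplicit false

open MeasureTheory Metric Set Filter Topology InnerProductGeometry

namespace Pool.Agent.Q183.CM

open Pool.Agent.Q183.CN
open Pool.Agent.H241R3.FV (Sph Triang coneOf Fill RChart)
open Pool.Agent.W716.FV (E gam gd)
open Pool.Agent.Q188.FC
open Pool.Agent.Q53.FC.CC (mv_lin NI_smul NI_sub norm_NI)
open Pool.Agent.Q183.CF (FE)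

theorem cover {d : ℕ} {κ ρ : ℝ} (h : Par (d + 1) κ ρ) {M : Type} [MetricSpace M]
    {S : Fill d M} {e : Sph (d + 1) → M → ℝ} (he : Dk ρ S.bd e)
    (hns : ∀ v w : Sph (d + 1), 2 * ρ / Real.pi * angle (v : E (d + 1)) (w : E (d + 1)) ≤
      dist (S.bd v) (S.bd w))
    (hT : (CompactSpace M ∧ S.Triangulated) ∨ S.NoRetraction) {p : E (d + 1)} (hp : ‖p‖ < ρ) :
    ∃ q, HH p (FE e q) = 0 := by
  have hp1 : ‖p‖ < 1 := hp.trans h.r1
  obtain ⟨b1, -, -, -, -, -, -, b9, b10⟩ := bst hp1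
  have hl0 : 0 < lf p := by linarith
  have hk := kn_pos (d + 1)
  obtain ⟨K, hK, hKl⟩ := HH_lip (n := d + 1) h.r0.le h.r1
  have hC : ∀ q, Ck κ ρ (FE e q) := fun q => FE_Ck h.r0.le h.k0 h.kk he q
  set m : M → E (d + 1) := fun q => (lf p * kn (d + 1))⁻¹ • NI p (NI p (HH p (FE e q))) + p with hm
  have hlip : ∀ q q', ‖m q - m q'‖ ≤ dist q q' * ((lf p * kn (d + 1))⁻¹ * (2 * (2 * K))) := by
    intro q q'
    have e1 : ‖HH p (FE e q) - HH p (FE e q')‖ ≤ K * dist q q' :=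
      hKl p _ _ (dist q q') hp.le (ck_bd h.r1.le (hC q)) (ck_bd h.r1.le (hC q')) dist_nonneg
        (FE_q he q q')
    have e2 : m q - m q' = (lf p * kn (d + 1))⁻¹ •
        NI p (NI p (HH p (FE e q) - HH p (FE e q'))) := by
      rw [hm]
      simp only
      rw [NI_sub, NI_sub, smul_sub]
      abel
    rw [e2, norm_smul, Real.norm_eq_abs, abs_of_pos (by positivity)]
    have e3 := norm_NI p (NI p (HH p (FE e q) - HH p (FE e q'))) hp1.le b1
    have e4 := norm_NI p (HH p (FE e q) - HH p (FE e q')) hp1.le b1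
    calc (lf p * kn (d + 1))⁻¹ * ‖NI p (NI p (HH p (FE e q) - HH p (FE e q')))‖ ≤
        (lf p * kn (d + 1))⁻¹ * (2 * (2 * (K * dist q q'))) := by
          refine mul_le_mul_of_nonneg_left ?_ (by positivity)
          linarith
      _ = _ := by ring
  have hcont : Continuous m := by
    have hL : LipschitzWith (Real.toNNReal ((lf p * kn (d + 1))⁻¹ * (2 * (2 * K)))) m := by
      refine LipschitzWith.of_dist_le_mul fun q q' => ?_
      rw [dist_eq_norm, Real.coe_toNNReal _ (by positivity), mul_comm]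
      exact hlip q q'
    exact hL.continuous
  have hbdry : ∀ x, m (S.bd x) = ρ • (x : E (d + 1)) := by
    intro x
    have e1 : FE e (S.bd x) = fun y => (inner ℝ (ρ • (x : E (d + 1))) y : ℝ) :=
      funext fun y => FE_bd he x y
    have e2 : ‖ρ • (x : E (d + 1))‖ ≤ 1 := by
      rw [norm_smul, sph_norm, mul_one, Real.norm_of_nonneg h.r0.le]
      exact h.r1.le
    rw [hm]
    simp only
    rw [e1, HH_lin h.r0.le h.r1 hp.le e2, NI_smul, b9, NI_smul, b9, smul_smul,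
      inv_mul_cancel₀ (by positivity), one_smul]
    abel
  have hpi : ρ ≤ Real.pi / 2 := by
    have := Real.pi_gt_three
    have := h.r1
    linarith
  have hsub : ball (0 : E (d + 1)) ρ ⊆ range m := by
    rcases hT with ⟨hT1, hT⟩ | hT
    · refine coverT (c := 2 * ρ / Real.pi) ?_ ?_ hns hT h.r0 hcont hlip hbdry
      · have := h.r0
        have := Real.pi_pos
        positivity
      · rw [div_le_one Real.pi_pos]
        linarith
    · exact Pool.Agent.H241R3.FV.TCover.taskCover (d + 1) (Nat.succ_pos d) M S.bd hT m ρ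
        h.r0 hcont hbdry
  obtain ⟨q, hq⟩ := hsub (mem_ball_zero_iff.2 hp)
  refine ⟨q, ?_⟩
  have h6 : (lf p * kn (d + 1))⁻¹ • NI p (NI p (HH p (FE e q))) = 0 := by
    have h7 : (lf p * kn (d + 1))⁻¹ • NI p (NI p (HH p (FE e q))) + p = p := hq
    simpa using h7
  have h7 := (smul_eq_zero.1 h6).resolve_left (by positivity)
  have h8 : NN p 0 = 0 := by
    unfold NN
    simp
  have h9 : NI p (HH p (FE e q)) = 0 := by
    rw [← b10 (NI p (HH p (FE e q))), h7, h8]
  rw [← b10 (HH p (FE e q)), h9, h8]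

/-- the lower bound for the volume -/
theorem main_lf {d : ℕ} {κ ρ : ℝ} (h : Par (d + 1) κ ρ) {M : Type} [MetricSpace M]
    (S : Fill d M) {e : Sph (d + 1) → M → ℝ} (he : Dk ρ S.bd e)
    (hns : ∀ v w : Sph (d + 1), 2 * ρ / Real.pi * angle (v : E (d + 1)) (w : E (d + 1)) ≤
      dist (S.bd v) (S.bd w))
    (hT : (CompactSpace M ∧ S.Triangulated) ∨ S.NoRetraction) :
    ∫⁻ p in ball (0 : E (d + 1)) ρ, ENNReal.ofReal (lf p) ≤ S.vol := by
  classical
  have := S.countable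
  have hκ1 : κ ≤ 1 := by
    have h1 := h.kk
    have h2 := h.rr
    refine le_of_sq_le_sq ?_ (by norm_num)
    linarith
  -- the centres in the charts
  set φ : S.ι → E (d + 1) → E (d + 1) → ℝ := fun i c => FE e ((S.chart i).map c) with hφ
  set s : S.ι → Set (E (d + 1)) := fun i =>
    {c | c ∈ (S.chart i).D ∧ ∃ p : E (d + 1), ‖p‖ < ρ ∧ HH p (φ i c) = 0} with hs
  set f : S.ι → E (d + 1) → E (d + 1) := fun i c =>
    if h : ∃ p : E (d + 1), ‖p‖ < ρ ∧ HH p (φ i c) = 0 then h.choose else 0 with hf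
  have hfs : ∀ i, ∀ c ∈ s i, ‖f i c‖ < ρ ∧ HH (f i c) (φ i c) = 0 := by
    intro i c hc
    have h := hc.2
    rw [hf]
    simp only
    rw [dif_pos h]
    exact h.choose_spec
  have huniq : ∀ ψ : E (d + 1) → ℝ, Ck κ ρ ψ → ∀ p p' : E (d + 1), ‖p‖ < ρ → ‖p'‖ < ρ →
      HH p ψ = 0 → HH p' ψ = 0 → p = p' := by
    intro ψ hψ p p' hp hp' h0 h0'
    obtain ⟨K, hK, hz⟩ := zero_lip h
    have h9 := hz p p' ψ ψ 0 hp hp' hψ hψ le_rfl (fun y => by simp) h0 h0'
    rw [mul_zero] at h9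
    have h10 : ‖p - p'‖ = 0 := le_antisymm h9 (norm_nonneg _)
    exact sub_eq_zero.1 (norm_eq_zero.1 h10)
  have hcov : ball (0 : E (d + 1)) ρ ⊆ ⋃ i, f i '' s i := by
    intro p hp
    rw [mem_ball_zero_iff] at hp
    obtain ⟨q, hq⟩ := cover h he hns hT hp
    rcases S.cover q with ⟨x, rfl⟩ | ⟨i, c, hc, rfl⟩
    · exfalso
      have e1 : FE e (S.bd x) = fun y => (inner ℝ (ρ • (x : E (d + 1))) y : ℝ) :=
        funext fun y => FE_bd he x y
      have e3 : ‖ρ • (x : E (d + 1))‖ = ρ := by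
        rw [norm_smul, sph_norm, mul_one, Real.norm_of_nonneg h.r0.le]
      rw [e1] at hq
      refine HH_lin_ne h.r0.le h.r1 hp.le (e3.le.trans h.r1.le) ?_ hq
      intro h0
      rw [← h0, e3] at hp
      exact lt_irrefl _ hp
    · have hcs : c ∈ s i := ⟨hc, p, hp, hq⟩
      obtain ⟨g1, g2⟩ := hfs i c hcs
      refine mem_iUnion.2 ⟨i, c, hcs, ?_⟩
      exact huniq _ (FE_Ck h.r0.le h.k0 h.kk he _) _ _ g1 hp g2 hq
  have hchart : ∀ i, ∫⁻ p in f i '' s i, ENNReal.ofReal (lf p) ≤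
      ∫⁻ c in (S.chart i).D, ENNReal.ofReal √((S.chart i).G c).det := by
    intro i
    obtain ⟨q1, q2⟩ := FE_chart h.r0.le h.k0 h.kk hκ1 he (S.chart i)
    exact chart_area h q1 (S.chart i).pos_G q2 (S.chart i).meas_D (S.chart i).D_sub rfl (hfs i)
  calc ∫⁻ p in ball (0 : E (d + 1)) ρ, ENNReal.ofReal (lf p)
      ≤ ∫⁻ p in ⋃ i, f i '' s i, ENNReal.ofReal (lf p) := lintegral_mono_set hcov
    _ ≤ ∑' i, ∫⁻ p in f i '' s i, ENNReal.ofReal (lf p) := lintegral_iUnion_le _ _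
    _ ≤ ∑' i, ∫⁻ c in (S.chart i).D, ENNReal.ofReal √((S.chart i).G c).det :=
        ENNReal.tsum_le_tsum hchart
    _ = S.vol := rfl

end Pool.Agent.Q183.CM
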