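import Pool.Agent.Q183.CM.J
import Pool.Agent.Q183.CN.L

/-!
# Fillings which are round outside a ball of radius at most `20.4°`, in all dimensions
-/

set_option autoImplicit false

open Real MeasureTheory Set Filter Topology InnerProductGeometry

namespace Pool.Agent.Q183.CM

open Pool.Agent.Q183.CN
open Pool.Agent.H241R3.FV (Sph Fill sig om)
open Pool.Agent.W716.FV (E)

/-- The ball of radius `R` is a minimal filling of its boundary. -/
theorem ball_minimal {d : ℕ} {K : Type} [MetricSpace K] (S : Fill d K)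
    (hT : (CompactSpace K ∧ S.Triangulated) ∨ S.NoRetraction) {R : ℝ} (hR0 : 0 < R)
    (hR1 : R < π / 2) (hR : 41 * sin R ^ 2 ≤ 5) {c : E (d + 2)} (hc : ‖c‖ = 1)
    {J : E (d + 1) →ₗᵢ[ℝ] E (d + 2)} (hJ : ∀ v, inner ℝ (J v) c = 0)
    (hd : ∀ v w : Sph (d + 1), angle (bp R c J v) (bp R c J w) ≤ dist (S.bd v) (S.bd w)) :
    sig (d + 2) {x : Sph (d + 2) | angle (x : E (d + 2)) c ≤ R} ≤ S.vol := by
  have h1 : 0 < sin R := sin_pos_of_pos_of_lt_pi hR0 (by linarith [pi_pos])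
  have h2 : 0 < cos R := cos_pos_of_mem_Ioo ⟨by linarith, hR1⟩
  have h3 := cos_sq_add_sin_sq R
  have hns : ∀ v w : Sph (d + 1), arccos (cos R ^ 2 + sin R ^ 2 *
      inner ℝ (v : E (d + 1)) (w : E (d + 1))) ≤ dist (S.bd v) (S.bd w) := by
    intro v w
    rw [← angle_bp hc hJ (sph_norm v) (sph_norm w)]
    exact hd v w
  have hsc : sin R ≤ cos R := by
    refine le_of_sq_le_sq ?_ h2.le
    linarith
  have hpar : Par (d + 1) (√2 * sin R) (sin R) := by
    refine ⟨Nat.succ_pos d, by positivity, h1, hR, ?_⟩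
    rw [mul_pow, Real.sq_sqrt (by norm_num)]
  have hdk := ek_dk (Nat.succ_pos d) h1 h2 h3 hsc hns
  have hm := main_lf hpar S hdk (fun v w => (angle_le_cap h1 h3 v w).trans (hns v w)) hT
  rw [ball_lf d hR0 hR1] at hm
  rw [cap_sig d hR0.le (by linarith [pi_pos]) hc]
  exact hm

/-- Fillings which are round outside the ball of radius `R`. -/
theorem round_outside {d : ℕ} {K M : Type} [MetricSpace K] [MetricSpace M] (S : Fill d K)
    (hT : (CompactSpace K ∧ S.Triangulated) ∨ S.NoRetraction) {R : ℝ}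
    (hR0 : 0 < R) (hR1 : R < π / 2) (hR : 41 * sin R ^ 2 ≤ 5) {n c : E (d + 2)} (hc : ‖c‖ = 1)
    {J : E (d + 1) →ₗᵢ[ℝ] E (d + 2)} (hJ : ∀ v, inner ℝ (J v) c = 0)
    (hball : ∀ x : E (d + 2), ‖x‖ = 1 → angle x c ≤ R → 0 ≤ inner ℝ x n)
    {j : K → M} (hj : ∀ x y, dist (j x) (j y) ≤ dist x y)
    {ι : E (d + 2) → M} (hι : ∀ x ∈ Outside n c R, ∀ y ∈ Outside n c R, Free c R x y →
      dist (ι x) (ι y) ≤ angle x y)
    (hglue : ∀ v : Sph (d + 1), ι (bp R c J v) = j (S.bd v))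
    (hno : ∀ x y, ‖x‖ = 1 → ‖y‖ = 1 → inner ℝ x n = 0 → inner ℝ y n = 0 →
      angle x y ≤ dist (ι x) (ι y)) :
    sig (d + 2) {x : Sph (d + 2) | angle (x : E (d + 2)) c ≤ R} ≤ S.vol :=
  ball_minimal S hT hR0 hR1 hR hc hJ (dist_ge hc hJ hR0.le hR1 hball hj hι hno hglue)

end Pool.Agent.Q183.CM
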